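import Mathlib

/-!
# Integrality of the coordinate ring over the algebra of hypersurface sections without a common zero
-/

set_option autoImplicit false
set_option linter.unusedSectionVars false

open MvPolynomial Finset
open scoped Classical

namespace Pool.Agent.H84.HS

section comp

variable {K : Type*} [Field K] {σ : Type*}

attribute [local instance] MvPolynomial.gradedAlgebra

/-- component of a product with a homogeneous polynomial -/
lemma comp_mul {Y : MvPolynomial σ K} {e : ℕ} (hY : Y.IsHomogeneous e) (g : MvPolynomial σ K) {k : ℕ}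
    (hk : e ≤ k) : homogeneousComponent k (g * Y) = homogeneousComponent (k - e) g * Y := by
  have h := DirectSum.coe_decompose_mul_of_right_mem_of_le (homogeneousSubmodule σ K) (a := g)
    ((mem_homogeneousSubmodule e Y).2 hY) hk
  have e1 : ∀ (p : MvPolynomial σ K) (i : ℕ),
      ((DirectSum.decompose (homogeneousSubmodule σ K) p i : _) : MvPolynomial σ K) =
        homogeneousComponent i p := fun p i => decomposition.decompose'_apply p i
  rw [e1, e1] at h
  exact h

end comp

section integral

variable {K : Type*} [Field K] {σ : Type*} [Fintype σ] {ι : Type*} [Fintype ι]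

/-- powers of the coordinates as combinations of the sections -/
lemma exists_pow (𝔭 : Ideal (MvPolynomial σ K)) (hhom : ∀ g ∈ 𝔭, ∀ k, homogeneousComponent k g ∈ 𝔭)
    (Y : ι → MvPolynomial σ K) (e : ι → ℕ) (hY : ∀ i, (Y i).IsHomogeneous (e i))
    (hz : ∀ x : σ → AlgebraicClosure K, (∀ g ∈ 𝔭, aeval x g = 0) → (∀ i, aeval x (Y i) = 0) → x = 0) :
    ∃ k : ℕ, (∀ i, e i ≤ k) ∧ ∀ j : σ, ∃ g : ι → MvPolynomial σ K, (∀ i, (g i).IsHomogeneous (k - e i)) ∧
      X j ^ k - ∑ i, g i * Y i ∈ 𝔭 := by
  set J : Ideal (MvPolynomial σ K) := 𝔭 ⊔ Ideal.span (Set.range Y) with hJ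
  have h1 : ∀ j : σ, X j ∈ J.radical := by
    intro j
    rw [← vanishingIdeal_zeroLocus_eq_radical (K := AlgebraicClosure K)]
    intro x hx
    have hx0 : x = 0 := hz x (fun g hg => hx g (Ideal.mem_sup_left hg))
      (fun i => hx _ (Ideal.mem_sup_right (Ideal.subset_span ⟨i, rfl⟩)))
    rw [hx0]
    simp
  choose a ha using fun j => h1 j
  refine ⟨∑ j, a j + ∑ i, e i, fun i => ?_, fun j => ?_⟩
  · exact (single_le_sum (f := e) (fun _ _ => Nat.zero_le _) (mem_univ i)).trans (Nat.le_add_left _ _)
  set k := ∑ j, a j + ∑ i, e i with hk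
  have hak : a j ≤ k :=
    (single_le_sum (f := a) (fun _ _ => Nat.zero_le _) (mem_univ j)).trans (Nat.le_add_right _ _)
  have hek : ∀ i, e i ≤ k := fun i =>
    (single_le_sum (f := e) (fun _ _ => Nat.zero_le _) (mem_univ i)).trans (Nat.le_add_left _ _)
  have h2 : (X j : MvPolynomial σ K) ^ k ∈ J := by
    have h3 : (X j : MvPolynomial σ K) ^ k = X j ^ (k - a j) * X j ^ a j := by
      rw [← pow_add, Nat.sub_add_cancel hak]
    rw [h3]
    exact J.mul_mem_left _ (ha j)
  obtain ⟨p, hp, q, hq, hpq⟩ := Submodule.mem_sup.1 h2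
  obtain ⟨c, hc⟩ := (Ideal.mem_span_range_iff_exists_fun).1 hq
  refine ⟨fun i => homogeneousComponent (k - e i) (c i), fun i => homogeneousComponent_isHomogeneous _ _, ?_⟩
  have h4 : homogeneousComponent k ((X j : MvPolynomial σ K) ^ k) = X j ^ k :=
    homogeneousComponent_eq_self (isHomogeneous_X_pow j k)
  have h5 : homogeneousComponent k q = ∑ i, homogeneousComponent (k - e i) (c i) * Y i := by
    rw [← hc, map_sum]
    apply sum_congr rfl
    intro i _
    exact comp_mul (hY i) (c i) (hek i)
  have h6 : (X j : MvPolynomial σ K) ^ k - ∑ i, homogeneousComponent (k - e i) (c i) * Y i =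
      homogeneousComponent k p := by
    rw [← h5]
    conv_lhs => rw [← h4, ← hpq, map_add]
    ring
  rw [h6]
  exact hhom p hp k

/-- the algebra map given by the sections -/
noncomputable def psi (𝔭 : Ideal (MvPolynomial σ K)) (Y : ι → MvPolynomial σ K) :
    MvPolynomial ι K →ₐ[K] MvPolynomial σ K ⧸ 𝔭 := (Ideal.Quotient.mkₐ K 𝔭).comp (aeval Y)

lemma psi_apply (𝔭 : Ideal (MvPolynomial σ K)) (Y : ι → MvPolynomial σ K) (G : MvPolynomial ι K) :
    psi 𝔭 Y G = Ideal.Quotient.mk 𝔭 (aeval Y G) := rfl

theorem psi_integral (𝔭 : Ideal (MvPolynomial σ K))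
    (hhom : ∀ g ∈ 𝔭, ∀ k, homogeneousComponent k g ∈ 𝔭)
    (Y : ι → MvPolynomial σ K) (e : ι → ℕ) (he : ∀ i, 1 ≤ e i) (hY : ∀ i, (Y i).IsHomogeneous (e i))
    (hz : ∀ x : σ → AlgebraicClosure K, (∀ g ∈ 𝔭, aeval x g = 0) → (∀ i, aeval x (Y i) = 0) → x = 0) :
    (psi 𝔭 Y).toRingHom.IsIntegral := by
  obtain ⟨k, hek, hk⟩ := exists_pow 𝔭 hhom Y e hY hz
  choose g hg hg2 using hk
  letI : Algebra (MvPolynomial ι K) (MvPolynomial σ K ⧸ 𝔭) := (psi 𝔭 Y).toRingHom.toAlgebra
  have hsmul : ∀ (b : MvPolynomial ι K) (a : MvPolynomial σ K ⧸ 𝔭), b • a = psi 𝔭 Y b * a := by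
    intro b a
    rfl
  set W : Set (MvPolynomial σ K ⧸ 𝔭) :=
    (fun s : σ →₀ ℕ => Ideal.Quotient.mk 𝔭 (monomial s 1)) '' {s | s.degree ≤ Fintype.card σ * k} with hW
  have hWf : W.Finite := (Finsupp.finite_of_degree_le _).image _
  have hC : ∀ (s : σ →₀ ℕ) (c : K), Ideal.Quotient.mk 𝔭 (monomial s c) =
      (C c : MvPolynomial ι K) • Ideal.Quotient.mk 𝔭 (monomial s 1) := by
    intro s c
    rw [hsmul, psi_apply, aeval_C, ← map_mul]
    congr 1
    rw [algebraMap_eq, C_mul_monomial, mul_one]
  have hhomog : ∀ (d : ℕ), (∀ d' < d, ∀ s : σ →₀ ℕ, s.degree = d' →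
      Ideal.Quotient.mk 𝔭 (monomial s 1) ∈ Submodule.span (MvPolynomial ι K) W) →
      ∀ (p : MvPolynomial σ K) (d' : ℕ), d' < d → p.IsHomogeneous d' →
        Ideal.Quotient.mk 𝔭 p ∈ Submodule.span (MvPolynomial ι K) W := by
    intro d ih p d' hd' hp
    rw [p.as_sum, map_sum]
    apply Submodule.sum_mem
    intro s hs
    rw [hC]
    apply Submodule.smul_mem
    exact ih d' hd' s (hp.degree_eq_sum_deg_support hs).symm
  have key : ∀ d : ℕ, ∀ s : σ →₀ ℕ, s.degree = d →
      Ideal.Quotient.mk 𝔭 (monomial s 1) ∈ Submodule.span (MvPolynomial ι K) W := by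
    intro d
    induction d using Nat.strong_induction_on with
    | _ d ih =>
      intro s hs
      by_cases hd : d ≤ Fintype.card σ * k
      · exact Submodule.subset_span ⟨s, by simpa [hs] using hd, rfl⟩
      · obtain ⟨j, hj⟩ : ∃ j, k ≤ s j := by
          by_contra hcon
          push Not at hcon
          apply hd
          rw [← hs, Finsupp.degree_eq_sum]
          calc ∑ i, s i ≤ ∑ _i : σ, k := sum_le_sum fun i _ => (hcon i).le
            _ = Fintype.card σ * k := by rw [sum_const, card_univ, smul_eq_mul]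
        set s' : σ →₀ ℕ := s - Finsupp.single j k with hs'
        have hs2 : s = Finsupp.single j k + s' := by
          rw [hs']
          ext i
          by_cases hi : i = j
          · subst hi
            simp [Nat.add_sub_cancel' hj]
          · simp [Finsupp.single_apply, Ne.symm hi]
        have hdeg : s'.degree = d - k := by
          have h1 : s.degree = k + s'.degree := by
            rw [hs2, map_add]
            simp
          omega
        have hkd : k ≤ d := by
          have h1 : s.degree = k + s'.degree := by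
            conv_lhs => rw [hs2, map_add]
            simp
          omega
        have hmon : (monomial s 1 : MvPolynomial σ K) = X j ^ k * monomial s' 1 := by
          rw [X_pow_eq_monomial, monomial_mul, ← hs2, mul_one]
        have h2 : Ideal.Quotient.mk 𝔭 (monomial s 1) =
            ∑ i, (X i : MvPolynomial ι K) • Ideal.Quotient.mk 𝔭 (g j i * monomial s' 1) := by
          have h3 : Ideal.Quotient.mk 𝔭 (X j ^ k) = ∑ i, Ideal.Quotient.mk 𝔭 (g j i) *
              Ideal.Quotient.mk 𝔭 (Y i) := by
            rw [← sub_eq_zero, ← Ideal.Quotient.eq_zero_iff_mem.2 (hg2 j), map_sub, map_sum]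
            simp only [map_mul]
          rw [hmon, map_mul, h3, sum_mul]
          apply sum_congr rfl
          intro i _
          rw [hsmul, psi_apply, aeval_X, map_mul]
          ring
        rw [h2]
        apply Submodule.sum_mem
        intro i _
        apply Submodule.smul_mem
        refine hhomog d ih _ (k - e i + (d - k)) ?_ ((hg j i).mul (isHomogeneous_monomial _ hdeg))
        have := he i
        have := hek i
        omega
  haveI : Module.Finite (MvPolynomial ι K) (MvPolynomial σ K ⧸ 𝔭) := by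
    refine ⟨Submodule.fg_def.2 ⟨W, hWf, ?_⟩⟩
    rw [Submodule.eq_top_iff']
    intro a
    obtain ⟨p, rfl⟩ := Ideal.Quotient.mk_surjective a
    rw [p.as_sum, map_sum]
    apply Submodule.sum_mem
    intro s _
    rw [hC]
    exact Submodule.smul_mem _ _ (key _ s rfl)
  intro a
  exact (Algebra.IsIntegral.of_finite (MvPolynomial ι K) (MvPolynomial σ K ⧸ 𝔭)).isIntegral a

/-- the fibres of the map given by the sections are bounded -/
theorem fibre_bound (𝔭 : Ideal (MvPolynomial σ K)) (Y : ι → MvPolynomial σ K)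
    (hint : (psi 𝔭 Y).toRingHom.IsIntegral) :
    ∃ c : ℕ, ∀ (E : Type) [Field E] [Algebra K E] (z : ι → E) (s : Finset (σ → E)),
      (∀ y ∈ s, (∀ g ∈ 𝔭, aeval y g = 0) ∧ ∀ i, aeval y (Y i) = z i) → s.card ≤ c := by
  choose q hq using fun j : σ => hint (Ideal.Quotient.mk 𝔭 (X j))
  refine ⟨∏ j, (q j).natDegree, ?_⟩
  intro E _ _ z s hs
  have hsub : s ⊆ Fintype.piFinset fun j => ((q j).map (aeval z).toRingHom).roots.toFinset := by
    intro y hy
    obtain ⟨h1, h2⟩ := hs y hy
    rw [Fintype.mem_piFinset]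
    intro j
    have hmonic : ((q j).map (aeval z).toRingHom).Monic := (hq j).1.map _
    rw [Multiset.mem_toFinset, Polynomial.mem_roots hmonic.ne_zero, Polynomial.IsRoot.def]
    -- the evaluation at `y`
    let ev : (MvPolynomial σ K ⧸ 𝔭) →+* E := Ideal.Quotient.lift 𝔭 (aeval y).toRingHom h1
    have hev : ∀ p : MvPolynomial σ K, ev (Ideal.Quotient.mk 𝔭 p) = aeval y p := fun p => rfl
    have hcomp : ev.comp (psi 𝔭 Y).toRingHom = (aeval z : MvPolynomial ι K →ₐ[K] E).toRingHom := by
      apply MvPolynomial.ringHom_ext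
      · intro r
        change ev (psi 𝔭 Y (C r)) = aeval z (C r)
        rw [psi_apply, hev, aeval_C, aeval_C, algebraMap_eq, aeval_C]
      · intro i
        change ev (psi 𝔭 Y (X i)) = aeval z (X i)
        rw [psi_apply, hev, aeval_X, aeval_X]
        exact h2 i
    have h3 := congrArg ev (hq j).2
    rw [Polynomial.hom_eval₂, hcomp, map_zero, hev, aeval_X] at h3
    rw [Polynomial.eval_map]
    exact h3
  calc s.card ≤ (Fintype.piFinset fun j => ((q j).map (aeval z).toRingHom).roots.toFinset).card :=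
        card_le_card hsub
    _ = ∏ j, ((q j).map (aeval z).toRingHom).roots.toFinset.card := Fintype.card_piFinset _
    _ ≤ ∏ j, (q j).natDegree := by
        apply prod_le_prod' fun j _ => ?_
        exact (Multiset.toFinset_card_le _).trans ((Polynomial.card_roots' _).trans
          (Polynomial.natDegree_map_le))

end integral

end Pool.Agent.H84.HS
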