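import Mathlib
import Pool.Agent.H84.HS.A
import Pool.Agent.H84.VA.E

/-!
# The image in the torus is not stable if the sections are indecomposable
-/

set_option autoImplicit false
set_option linter.unusedSectionVars false

open MvPolynomial Finset
open scoped Classical

namespace Pool.Agent.H84.HS

open Pool.Agent.H84.VA

section graded

variable {K : Type*} [Field K] {σ : Type*} [Fintype σ] {ι : Type*} [Fintype ι]

/-- the kernel of `psi` is homogeneous if the sections have the same degree -/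
lemma ker_homog (𝔭 : Ideal (MvPolynomial σ K)) (hhom : ∀ g ∈ 𝔭, ∀ k, homogeneousComponent k g ∈ 𝔭)
    (Y : ι → MvPolynomial σ K) {e : ℕ} (he : 1 ≤ e) (hY : ∀ i, (Y i).IsHomogeneous e)
    (G : MvPolynomial ι K) (hG : aeval Y G ∈ 𝔭) (M : ℕ) : aeval Y (homogeneousComponent M G) ∈ 𝔭 := by
  have h1 : ∀ M : ℕ, (aeval Y (homogeneousComponent M G)).IsHomogeneous (e * M) := fun M =>
    (homogeneousComponent_isHomogeneous M G).aeval Y hY
  have h2 : homogeneousComponent (e * M) (aeval Y G) = aeval Y (homogeneousComponent M G) := by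
    conv_lhs => rw [← sum_homogeneousComponent G]
    rw [map_sum, map_sum]
    have h3 : ∀ i, homogeneousComponent (e * M) (aeval Y (homogeneousComponent i G)) =
        if i = M then aeval Y (homogeneousComponent M G) else 0 := by
      intro i
      rw [homogeneousComponent_of_mem (h1 i)]
      by_cases hi : i = M
      · subst hi; simp
      · rw [if_neg hi, if_neg]
        intro h
        exact hi (Nat.eq_of_mul_eq_mul_left he h.symm)
    rw [sum_congr rfl fun i _ => h3 i]
    rw [sum_ite_eq' (range (G.totalDegree + 1)) M]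
    split_ifs with hM
    · rfl
    · rw [homogeneousComponent_eq_zero _ _ (by rw [mem_range] at hM; omega), map_zero]
  rw [← h2]
  exact hhom _ hG _

end graded

section torus

variable {K : Type*} [Field K] {σ : Type*} [Fintype σ] {N : ℕ}

/-- homogeneity of the values -/
lemma aeval_smul_homog {F : Type*} [Field F] [Algebra K F] {G : MvPolynomial (Fin (N + 1)) K} {M : ℕ}
    (hG : G.IsHomogeneous M) (c : F) (u : Fin (N + 1) → F) :
    aeval (fun i => c * u i) G = c ^ M * aeval u G := by
  rw [aevalF, aevalF, mul_sum]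
  apply sum_congr rfl
  intro s hs
  unfold monF
  rw [show ∏ i, (c * u i) ^ s i = c ^ M * ∏ i, u i ^ s i by
    simp only [mul_pow, prod_mul_distrib]
    congr 1
    rw [prod_pow_eq_pow_sum]
    congr 1
    rw [hG.degree_eq_sum_deg_support hs]
    exact (sum_subset (subset_univ _) fun i _ hi => by simpa using hi).symm]
  ring

/-- the values of the sections in the function field of the cone -/
noncomputable def yy (𝔭 : Ideal (MvPolynomial σ K)) (Y : Fin (N + 1) → MvPolynomial σ K)
    (i : Fin (N + 1)) : FractionRing (MvPolynomial σ K ⧸ 𝔭) :=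
  algebraMap (MvPolynomial σ K ⧸ 𝔭) _ (Ideal.Quotient.mk 𝔭 (Y i))

/-- the ideal of the image in the torus -/
noncomputable def tI (𝔭 : Ideal (MvPolynomial σ K)) [𝔭.IsPrime] (Y : Fin (N + 1) → MvPolynomial σ K) :
    Ideal (MvPolynomial (Fin N) K) :=
  RingHom.ker (aeval (fun j : Fin N => yy 𝔭 Y j.succ / yy 𝔭 Y 0) :
    MvPolynomial (Fin N) K →ₐ[K] FractionRing (MvPolynomial σ K ⧸ 𝔭))

lemma aeval_frac (𝔭 : Ideal (MvPolynomial σ K)) {ι : Type*} (Y : ι → MvPolynomial σ K) (G : MvPolynomial ι K) :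
    aeval (fun i => algebraMap (MvPolynomial σ K ⧸ 𝔭) (FractionRing (MvPolynomial σ K ⧸ 𝔭))
      (Ideal.Quotient.mk 𝔭 (Y i))) G =
      algebraMap (MvPolynomial σ K ⧸ 𝔭) _ (Ideal.Quotient.mk 𝔭 (aeval Y G)) := by
  have h : (aeval (fun i => algebraMap (MvPolynomial σ K ⧸ 𝔭) (FractionRing (MvPolynomial σ K ⧸ 𝔭))
      (Ideal.Quotient.mk 𝔭 (Y i))) : MvPolynomial ι K →ₐ[K] FractionRing (MvPolynomial σ K ⧸ 𝔭)) =
      ((IsScalarTower.toAlgHom K (MvPolynomial σ K ⧸ 𝔭) (FractionRing (MvPolynomial σ K ⧸ 𝔭))).comp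
        (Ideal.Quotient.mkₐ K 𝔭)).comp (aeval Y) := by
    apply MvPolynomial.algHom_ext
    intro i
    simp
  rw [h]
  rfl

lemma frac_eq_zero (𝔭 : Ideal (MvPolynomial σ K)) [𝔭.IsPrime] (g : MvPolynomial σ K) :
    algebraMap (MvPolynomial σ K ⧸ 𝔭) (FractionRing (MvPolynomial σ K ⧸ 𝔭)) (Ideal.Quotient.mk 𝔭 g) = 0 ↔
      g ∈ 𝔭 := by
  rw [map_eq_zero_iff _ (IsFractionRing.injective _ _), Ideal.Quotient.eq_zero_iff_mem]

/-- if the ideal is graded then the sections outside some set can be replaced by zero -/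
theorem retract (𝔭 : Ideal (MvPolynomial σ K)) [h𝔭 : 𝔭.IsPrime] [CharZero K]
    (hhom : ∀ g ∈ 𝔭, ∀ k, homogeneousComponent k g ∈ 𝔭)
    (Y : Fin (N + 1) → MvPolynomial σ K) {e : ℕ} (he : 1 ≤ e) (hY : ∀ i, (Y i).IsHomogeneous e)
    (hY0 : Y 0 ∉ 𝔭) (hgr : ¬ NotGraded (tI 𝔭 Y)) :
    ∃ J : Finset (Fin (N + 1)), J.Nonempty ∧ J ≠ univ ∧ ∀ G : MvPolynomial (Fin (N + 1)) K,
      aeval Y G ∈ 𝔭 → aeval (fun i => if i ∈ J then Y i else 0) G ∈ 𝔭 := by
  unfold NotGraded at hgr
  push Not at hgr
  obtain ⟨w, hw, hgr⟩ := hgr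
  set w' : Fin (N + 1) → ℤ := Fin.cons 0 w with hw'
  obtain ⟨i0, _, hi0⟩ := exists_min_image (univ : Finset (Fin (N + 1))) w' ⟨0, mem_univ _⟩
  set μ := w' i0 with hμ
  set J : Finset (Fin (N + 1)) := univ.filter fun i => w' i = μ with hJ
  set F := FractionRing (MvPolynomial σ K ⧸ 𝔭) with hF
  have hy0 : yy 𝔭 Y 0 ≠ 0 := by
    unfold yy
    rw [ne_eq, frac_eq_zero]
    exact hY0
  have hInf : Infinite F := by
    haveI : CharZero F := charZero_of_injective_algebraMap (algebraMap K F).injective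
    infer_instance
  refine ⟨J, ⟨i0, by simp [hJ, hμ]⟩, ?_, ?_⟩
  · intro h
    apply hw
    have h0 : w' 0 = μ := by
      have : (0 : Fin (N + 1)) ∈ J := h ▸ mem_univ _
      exact (mem_filter.1 this).2
    ext j
    have h1 : w' j.succ = μ := by
      have : j.succ ∈ J := h ▸ mem_univ _
      exact (mem_filter.1 this).2
    rw [← h0] at h1
    simpa [hw'] using h1
  · intro G hG
    -- the homogeneous case
    have hhomog : ∀ (M : ℕ) (G : MvPolynomial (Fin (N + 1)) K), G.IsHomogeneous M → aeval Y G ∈ 𝔭 →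
        aeval (fun i => if i ∈ J then Y i else 0) G ∈ 𝔭 := by
      intro M G hGM hG
      set z : Fin N → F := fun j => yy 𝔭 Y j.succ / yy 𝔭 Y 0 with hz
      have hGy : aeval (yy 𝔭 Y) G = 0 := by
        have := aeval_frac 𝔭 Y G
        rw [(frac_eq_zero 𝔭 _).2 hG] at this
        exact this
      set g : MvPolynomial (Fin N) K := aeval (Fin.cons 1 X : Fin (N + 1) → MvPolynomial (Fin N) K) G with hg
      have hgval : ∀ u : Fin N → F, aeval u g = aeval (Fin.cons 1 u : Fin (N + 1) → F) G := by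
        intro u
        have h : ((aeval u : MvPolynomial (Fin N) K →ₐ[K] F).comp
            (aeval (Fin.cons 1 X : Fin (N + 1) → MvPolynomial (Fin N) K))) =
            (aeval (Fin.cons 1 u : Fin (N + 1) → F) : MvPolynomial (Fin (N + 1)) K →ₐ[K] F) := by
          apply MvPolynomial.algHom_ext
          intro i
          refine Fin.cases ?_ (fun j => ?_) i
          · simp
          · simp
        rw [← h]
        rfl
      have hgI : g ∈ tI 𝔭 Y := by
        unfold tI
        rw [RingHom.mem_ker]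
        change aeval z g = 0
        rw [hgval]
        have h1 := aeval_smul_homog hGM (yy 𝔭 Y 0) (Fin.cons 1 z : Fin (N + 1) → F)
        have h2 : (fun i => yy 𝔭 Y 0 * (Fin.cons 1 z : Fin (N + 1) → F) i) = yy 𝔭 Y := by
          ext i
          refine Fin.cases ?_ (fun j => ?_) i
          · simp
          · simp only [Fin.cons_succ, hz]
            field_simp
        rw [h2, hGy] at h1
        rcases mul_eq_zero.1 h1.symm with h | h
        · exact absurd h (pow_ne_zero _ hy0)
        · exact h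
      -- the twisted values
      set P : Polynomial F := aeval (fun i => Polynomial.C (yy 𝔭 Y i) * Polynomial.X ^ (w' i - μ).toNat) G
        with hP
      have hPval : ∀ t : F, P.eval t = aeval (fun i => yy 𝔭 Y i * t ^ (w' i - μ).toNat) G := by
        intro t
        have h : ((Polynomial.aeval t : Polynomial F →ₐ[F] F).restrictScalars K).comp
            (aeval (fun i => Polynomial.C (yy 𝔭 Y i) * Polynomial.X ^ (w' i - μ).toNat)) =
            (aeval (fun i => yy 𝔭 Y i * t ^ (w' i - μ).toNat) : MvPolynomial (Fin (N + 1)) K →ₐ[K] F) := by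
          apply MvPolynomial.algHom_ext
          intro i
          simp
        rw [← h]
        rfl
      have hPt : ∀ t : F, t ≠ 0 → P.eval t = 0 := by
        intro t ht
        rw [hPval]
        have h1 : aeval (fun j => t ^ w j * z j) g = 0 := by
          rw [aeval_scale g z w ht]
          apply sum_eq_zero
          intro k _
          have h2 := hgr g hgI k
          unfold tI at h2
          rw [RingHom.mem_ker] at h2
          change aeval z _ = 0 at h2
          rw [h2, mul_zero]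
        rw [hgval] at h1
        have h3 := aeval_smul_homog hGM (t ^ (-μ) * yy 𝔭 Y 0) (Fin.cons 1 (fun j => t ^ w j * z j) : Fin (N + 1) → F)
        rw [h1, mul_zero] at h3
        rw [← h3]
        congr 2
        ext i
        have h4 : t ^ (w' i - μ).toNat = t ^ (w' i - μ) := by
          rw [← zpow_natCast, Int.toNat_of_nonneg (by linarith [hi0 i (mem_univ i)])]
        rw [h4]
        refine Fin.cases ?_ (fun j => ?_) i
        · simp [hw', mul_comm]
        · simp only [Fin.cons_succ, hz, hw']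
          rw [zpow_sub₀ ht, zpow_neg]
          field_simp
      have hP0 : P = 0 := by
        apply Polynomial.eq_zero_of_infinite_isRoot
        refine Set.Infinite.mono (s := {t : F | t ≠ 0}) ?_ ?_
        · intro t ht
          exact hPt t ht
        · exact (Set.finite_singleton (0 : F)).infinite_compl
      have h5 : aeval (fun i => yy 𝔭 Y i * (0 : F) ^ (w' i - μ).toNat) G = 0 := by
        rw [← hPval, hP0, Polynomial.eval_zero]
      have h6 : (fun i => yy 𝔭 Y i * (0 : F) ^ (w' i - μ).toNat) =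
          fun i => algebraMap (MvPolynomial σ K ⧸ 𝔭) (FractionRing (MvPolynomial σ K ⧸ 𝔭))
            (Ideal.Quotient.mk 𝔭 (if i ∈ J then Y i else 0)) := by
        ext i
        by_cases hi : i ∈ J
        · have h7 : w' i = μ := (mem_filter.1 hi).2
          rw [if_pos hi, h7]
          simp [yy]
        · have h7 : w' i ≠ μ := fun h => hi (mem_filter.2 ⟨mem_univ _, h⟩)
          have h8 : μ < w' i := lt_of_le_of_ne (hi0 i (mem_univ i)) (Ne.symm h7)
          rw [if_neg hi, zero_pow (by omega)]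
          simp
      rw [h6, aeval_frac, frac_eq_zero] at h5
      exact h5
    rw [← sum_homogeneousComponent G, map_sum]
    apply Ideal.sum_mem
    intro M _
    exact hhomog M _ (homogeneousComponent_isHomogeneous M G) (ker_homog 𝔭 hhom Y he hY G hG M)

/-- the retraction of a point of the variety is a point of the variety -/
theorem stratum (𝔭 : Ideal (MvPolynomial σ K)) [h𝔭 : 𝔭.IsPrime] {ι : Type*} [Fintype ι]
    (Y : ι → MvPolynomial σ K) (hint : (psi 𝔭 Y).toRingHom.IsIntegral) (J : Finset ι)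
    (hJ : ∀ G : MvPolynomial ι K, aeval Y G ∈ 𝔭 → aeval (fun i => if i ∈ J then Y i else 0) G ∈ 𝔭)
    (x : σ → AlgebraicClosure K) (hx : ∀ g ∈ 𝔭, aeval x g = 0) :
    ∃ y : σ → AlgebraicClosure K, (∀ g ∈ 𝔭, aeval y g = 0) ∧
      ∀ i, aeval y (Y i) ≠ 0 ↔ (i ∈ J ∧ aeval x (Y i) ≠ 0) := by
  set χ : MvPolynomial ι K →ₐ[K] AlgebraicClosure K :=
    aeval (fun i => if i ∈ J then aeval x (Y i) else 0) with hχ
  have hχ2 : ∀ G : MvPolynomial ι K, χ G = aeval x (aeval (fun i => if i ∈ J then Y i else 0) G) := by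
    intro G
    have h : χ = (aeval x : MvPolynomial σ K →ₐ[K] AlgebraicClosure K).comp
        (aeval (fun i => if i ∈ J then Y i else 0)) := by
      apply MvPolynomial.algHom_ext
      intro i
      by_cases hi : i ∈ J
      · simp [hχ, hi]
      · simp [hχ, hi]
    rw [h]
    rfl
  set P : Ideal (MvPolynomial ι K) := RingHom.ker χ with hP
  have hPp : P.IsPrime := RingHom.ker_isPrime χ
  letI : Algebra (MvPolynomial ι K) (MvPolynomial σ K ⧸ 𝔭) := (psi 𝔭 Y).toRingHom.toAlgebra
  haveI : Algebra.IsIntegral (MvPolynomial ι K) (MvPolynomial σ K ⧸ 𝔭) := ⟨fun a => hint a⟩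
  obtain ⟨Q, _, hQp, hQ⟩ := Ideal.exists_ideal_over_prime_of_isIntegral (S := MvPolynomial σ K ⧸ 𝔭) P ⊥ (by
    intro G hG
    rw [Ideal.mem_comap] at hG
    have h1 : algebraMap (MvPolynomial ι K) (MvPolynomial σ K ⧸ 𝔭) G = 0 := by
      simpa using hG
    change psi 𝔭 Y G = 0 at h1
    rw [psi_apply, Ideal.Quotient.eq_zero_iff_mem] at h1
    rw [hP, RingHom.mem_ker]
    exact (hχ2 G).trans (hx _ (hJ G h1)))
  set R : Ideal (MvPolynomial σ K) := Q.comap (Ideal.Quotient.mk 𝔭) with hR
  have hRp : R.IsPrime := Ideal.comap_isPrime _ _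
  have hpR : 𝔭 ≤ R := by
    intro g hg
    rw [hR, Ideal.mem_comap, Ideal.Quotient.eq_zero_iff_mem.2 hg]
    exact Q.zero_mem
  have hYR : ∀ i, Y i ∈ R ↔ ¬ (i ∈ J ∧ aeval x (Y i) ≠ 0) := by
    intro i
    have h1 : Y i ∈ R ↔ (X i : MvPolynomial ι K) ∈ P := by
      rw [← hQ, Ideal.mem_comap, Ideal.mem_comap]
      have : algebraMap (MvPolynomial ι K) (MvPolynomial σ K ⧸ 𝔭) (X i) = Ideal.Quotient.mk 𝔭 (Y i) := by
        change psi 𝔭 Y (X i) = _
        rw [psi_apply, aeval_X]
      rw [this]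
    rw [h1, hP, RingHom.mem_ker]
    have h2 : χ (X i) = if i ∈ J then aeval x (Y i) else 0 := by rw [hχ, aeval_X]
    change χ (X i) = 0 ↔ _
    rw [h2]
    by_cases hi : i ∈ J
    · simp [hi]
    · simp [hi]
  set B : Finset ι := univ.filter fun i => i ∈ J ∧ aeval x (Y i) ≠ 0 with hB
  have hprod : ∏ i ∈ B, Y i ∉ R := by
    rw [hRp.prod_mem_iff]
    push Not
    intro i hi
    rw [hYR]
    push Not
    exact (mem_filter.1 hi).2
  rw [← IsPrime.vanishingIdeal_zeroLocus (K := AlgebraicClosure K) R, mem_vanishingIdeal_iff] at hprod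
  push Not at hprod
  obtain ⟨y, hy, hy2⟩ := hprod
  refine ⟨y, fun g hg => hy g (hpR hg), fun i => ?_⟩
  rw [map_prod] at hy2
  constructor
  · intro h
    by_contra hcon
    exact h (hy _ ((hYR i).2 hcon))
  · intro h
    exact prod_ne_zero_iff.1 hy2 i (mem_filter.2 ⟨mem_univ _, h⟩)

end torus

end Pool.Agent.H84.HS
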