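import Mathlib
import Pool.Agent.H84.HS.A

/-!
# Hypersurface sections in general position are indecomposable
-/

set_option autoImplicit false
set_option linter.unusedSectionVars false

open MvPolynomial Finset
open scoped Classical Cardinal

namespace Pool.Agent.H84.HS

variable {K : Type*} [Field K] {σ : Type*} [Fintype σ] {ι : Type*} [Fintype ι]

/-- on a projective variety of dimension `n`, any `n` hypersurface sections have a common zero -/
theorem exists_zero (𝔭 : Ideal (MvPolynomial σ K)) [h𝔭 : 𝔭.IsPrime]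
    (hhom : ∀ g ∈ 𝔭, ∀ k, homogeneousComponent k g ∈ 𝔭) {n : ℕ}
    (hdim : Algebra.trdeg K (MvPolynomial σ K ⧸ 𝔭) = (n + 1 : ℕ))
    (Y : ι → MvPolynomial σ K) (e : ι → ℕ) (he : ∀ i, 1 ≤ e i) (hY : ∀ i, (Y i).IsHomogeneous (e i))
    (hn : Fintype.card ι ≤ n) :
    ∃ x : σ → AlgebraicClosure K, x ≠ 0 ∧ (∀ g ∈ 𝔭, aeval x g = 0) ∧ ∀ i, aeval x (Y i) = 0 := by
  by_contra hcon
  push Not at hcon
  have hint := psi_integral 𝔭 hhom Y e he hY (by
    intro x h1 h2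
    by_contra hx
    obtain ⟨i, hi⟩ := hcon x hx h1
    exact hi (h2 i))
  set y : ι → MvPolynomial σ K ⧸ 𝔭 := fun i => Ideal.Quotient.mk 𝔭 (Y i) with hy
  have hpsi : psi 𝔭 Y = aeval y := by
    apply MvPolynomial.algHom_ext
    intro i
    rw [psi_apply, aeval_X, aeval_X]
  have hrange : ∀ p : MvPolynomial ι K, psi 𝔭 Y p ∈ Algebra.adjoin K (Set.range y) := by
    intro p
    rw [Algebra.adjoin_range_eq_range_aeval, hpsi]
    exact ⟨p, rfl⟩
  let ρ : MvPolynomial ι K →+* Algebra.adjoin K (Set.range y) :=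
    (psi 𝔭 Y).toRingHom.codRestrict (Algebra.adjoin K (Set.range y)) hrange
  have hρ : (algebraMap (Algebra.adjoin K (Set.range y)) (MvPolynomial σ K ⧸ 𝔭)).comp ρ =
      (psi 𝔭 Y).toRingHom := rfl
  haveI : Algebra.IsIntegral (Algebra.adjoin K (Set.range y)) (MvPolynomial σ K ⧸ 𝔭) := by
    refine ⟨fun a => ?_⟩
    obtain ⟨p, hp1, hp2⟩ := hint a
    refine ⟨p.map ρ, hp1.map _, ?_⟩
    rw [Polynomial.eval₂_map, hρ]
    exact hp2
  haveI : Nontrivial (Algebra.adjoin K (Set.range y)) := inferInstance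
  haveI : Algebra.IsAlgebraic (Algebra.adjoin K (Set.range y)) (MvPolynomial σ K ⧸ 𝔭) := inferInstance
  have h1 := Algebra.IsAlgebraic.trdeg_le_cardinalMk K (Set.range y)
  rw [hdim] at h1
  have h2 : #(Set.range y) ≤ (n : ℕ) := by
    rw [Cardinal.mk_fintype]
    have : Fintype.card (Set.range y) ≤ Fintype.card ι :=
      Fintype.card_le_of_surjective (Set.rangeFactorization y) Set.rangeFactorization_surjective
    exact_mod_cast this.trans hn
  have h3 := h1.trans h2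
  rw [Nat.cast_le] at h3
  omega

/-- for a finite set of the sections -/
theorem exists_zero' (𝔭 : Ideal (MvPolynomial σ K)) [h𝔭 : 𝔭.IsPrime]
    (hhom : ∀ g ∈ 𝔭, ∀ k, homogeneousComponent k g ∈ 𝔭) {n : ℕ}
    (hdim : Algebra.trdeg K (MvPolynomial σ K ⧸ 𝔭) = (n + 1 : ℕ))
    (Y : ι → MvPolynomial σ K) (e : ι → ℕ) (he : ∀ i, 1 ≤ e i) (hY : ∀ i, (Y i).IsHomogeneous (e i))
    (T : Finset ι) (hn : T.card ≤ n) :
    ∃ x : σ → AlgebraicClosure K, x ≠ 0 ∧ (∀ g ∈ 𝔭, aeval x g = 0) ∧ ∀ i ∈ T, aeval x (Y i) = 0 := by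
  obtain ⟨x, h1, h2, h3⟩ := exists_zero 𝔭 hhom hdim (fun i : T => Y i) (fun i => e i) (fun i => he i)
    (fun i => hY i) (by rw [Fintype.card_coe]; exact hn)
  exact ⟨x, h1, h2, fun i hi => h3 ⟨i, hi⟩⟩

lemma eval_zero_of_pos {Y : MvPolynomial σ K} {e : ℕ} (he : 1 ≤ e) (hY : Y.IsHomogeneous e) :
    aeval (0 : σ → AlgebraicClosure K) Y = 0 := by
  have h1 : coeff 0 Y = 0 := hY.coeff_eq_zero (by simp; omega)
  rw [aeval_zero, constantCoeff_eq, h1, map_zero]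

/-- general position implies that the sections are indecomposable -/
theorem indec_of_general (𝔭 : Ideal (MvPolynomial σ K)) [h𝔭 : 𝔭.IsPrime]
    (hhom : ∀ g ∈ 𝔭, ∀ k, homogeneousComponent k g ∈ 𝔭) {n : ℕ}
    (hdim : Algebra.trdeg K (MvPolynomial σ K ⧸ 𝔭) = (n + 1 : ℕ))
    (Y : ι → MvPolynomial σ K) (e : ι → ℕ) (he : ∀ i, 1 ≤ e i) (hY : ∀ i, (Y i).IsHomogeneous (e i))
    (hr : n + 2 ≤ Fintype.card ι)
    (hgen : ∀ T : Finset ι, T.card = n + 1 → ∀ x : σ → AlgebraicClosure K, (∀ g ∈ 𝔭, aeval x g = 0) →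
      (∀ i ∈ T, aeval x (Y i) = 0) → x = 0)
    (J : Finset ι) (hJ : J.Nonempty) (hJu : J ≠ univ) :
    ∃ x : σ → AlgebraicClosure K, (∀ g ∈ 𝔭, aeval x g = 0) ∧ (∃ i ∈ J, aeval x (Y i) ≠ 0) ∧
      ¬ ∃ y : σ → AlgebraicClosure K, (∀ g ∈ 𝔭, aeval y g = 0) ∧
        ∀ i, aeval y (Y i) ≠ 0 ↔ (i ∈ J ∧ aeval x (Y i) ≠ 0) := by
  obtain ⟨i0, hi0⟩ := hJ
  have hcard : (univ.erase i0 : Finset ι).card = Fintype.card ι - 1 := by
    rw [card_erase_of_mem (mem_univ _), card_univ]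
  have hmain : ∀ T : Finset ι, T.card = n → i0 ∉ T → (J.erase i0 ⊆ T ∨ T ⊆ J.erase i0) →
      ∃ x : σ → AlgebraicClosure K, (∀ g ∈ 𝔭, aeval x g = 0) ∧ (∃ i ∈ J, aeval x (Y i) ≠ 0) ∧
      ¬ ∃ y : σ → AlgebraicClosure K, (∀ g ∈ 𝔭, aeval y g = 0) ∧
        ∀ i, aeval y (Y i) ≠ 0 ↔ (i ∈ J ∧ aeval x (Y i) ≠ 0) := by
    intro T hT hiT hor
    obtain ⟨x, hx0, hx, hxT⟩ := exists_zero' 𝔭 hhom hdim Y e he hY T hT.le
    have hxi : aeval x (Y i0) ≠ 0 := by
      intro h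
      apply hx0
      refine hgen (insert i0 T) (by rw [card_insert_of_notMem hiT, hT]) x hx ?_
      intro i hi
      rcases mem_insert.1 hi with h' | h'
      · rw [h']; exact h
      · exact hxT i h'
    refine ⟨x, hx, ⟨i0, hi0, hxi⟩, ?_⟩
    rintro ⟨y, hy, hy2⟩
    have hyi : aeval y (Y i0) ≠ 0 := (hy2 i0).2 ⟨hi0, hxi⟩
    have hy0 : y = 0 := by
      rcases hor with h | h
      · obtain ⟨T', hT', hT'c⟩ := exists_subset_card_eq (s := (univ.erase i0 : Finset ι)) (n := n + 1)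
          (by omega)
        refine hgen T' hT'c y hy fun i hi => ?_
        have hne : i ≠ i0 := (mem_erase.1 (hT' hi)).1
        by_contra hcon
        obtain ⟨g1, g2⟩ := (hy2 i).1 hcon
        exact g2 (hxT i (h (mem_erase.2 ⟨hne, g1⟩)))
      · obtain ⟨i1, hi1⟩ : ∃ i1, i1 ∉ J := by
          by_contra hcon
          push Not at hcon
          exact hJu (eq_univ_iff_forall.2 hcon)
        have hi1T : i1 ∉ T := fun h' => hi1 (mem_erase.1 (h h')).2
        refine hgen (insert i1 T) (by rw [card_insert_of_notMem hi1T, hT]) y hy fun i hi => ?_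
        by_contra hcon
        obtain ⟨g1, g2⟩ := (hy2 i).1 hcon
        rcases mem_insert.1 hi with h' | h'
        · rw [h'] at g1; exact hi1 g1
        · exact g2 (hxT i h')
    rw [hy0] at hyi
    exact hyi (eval_zero_of_pos (he i0) (hY i0))
  rcases le_total (J.erase i0).card n with h | h
  · obtain ⟨T, hT1, hT2, hT3⟩ := exists_subsuperset_card_eq
      (erase_subset_erase i0 (subset_univ J)) h (by omega)
    exact hmain T hT3 (fun h' => (mem_erase.1 (hT2 h')).1 rfl) (Or.inl hT1)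
  · obtain ⟨T, hT1, hT2⟩ := exists_subset_card_eq h
    exact hmain T hT2 (fun h' => (mem_erase.1 (hT1 h')).1 rfl) (Or.inr hT1)

end Pool.Agent.H84.HS
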