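import Mathlib
import Pool.Agent.H84.HS.B
import Pool.Agent.H84.VA.F

/-!
# From the points of a projective variety to the points of the image in the torus
-/

set_option autoImplicit false
set_option linter.unusedSectionVars false

open MvPolynomial NumberField Height Finset LinearAlgebra.Projectivization
open scoped Classical

namespace Pool.Agent.H84.HS

open Pool.Agent.H57R3.VJ (NN two_le_NN NN_pos sv sv_att sv_pos sv_nonneg le_sv sv_fin gt_one_fin fin_of_bdd)
open Pool.Agent.H84.VA

section homog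

variable {K : Type*} [Field K] {σ : Type*} [Fintype σ] {N : ℕ}

/-- homogenisation -/
noncomputable def hz (Y : Fin (N + 1) → MvPolynomial σ K) (g : MvPolynomial (Fin N) K) : MvPolynomial σ K :=
  ∑ s ∈ g.support, C (coeff s g) * (Y 0 ^ (g.totalDegree - ∑ j, s j) * ∏ j, Y j.succ ^ s j)

lemma sum_le_totalDegree (g : MvPolynomial (Fin N) K) {s : Fin N →₀ ℕ} (hs : s ∈ g.support) :
    ∑ j, s j ≤ g.totalDegree := by
  have h := le_totalDegree hs
  rwa [Finsupp.sum_fintype _ _ fun _ => rfl] at h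

lemma hz_homog {Y : Fin (N + 1) → MvPolynomial σ K} {e : ℕ} (hY : ∀ i, (Y i).IsHomogeneous e)
    (g : MvPolynomial (Fin N) K) : (hz Y g).IsHomogeneous (e * g.totalDegree) := by
  unfold hz
  apply IsHomogeneous.sum
  intro s hs
  apply IsHomogeneous.C_mul
  have h1 : (Y 0 ^ (g.totalDegree - ∑ j, s j)).IsHomogeneous (e * (g.totalDegree - ∑ j, s j)) :=
    (hY 0).pow _
  have h2 : (∏ j, Y j.succ ^ s j).IsHomogeneous (∑ j, e * s j) :=
    IsHomogeneous.prod _ _ _ fun j _ => (hY j.succ).pow _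
  have h3 := h1.mul h2
  rwa [← mul_sum, ← mul_add, Nat.sub_add_cancel (sum_le_totalDegree g hs)] at h3

lemma hz_eval {E : Type*} [Field E] [Algebra K E] (Y : Fin (N + 1) → MvPolynomial σ K)
    (θ : MvPolynomial σ K →ₐ[K] E) (h0 : θ (Y 0) ≠ 0) (g : MvPolynomial (Fin N) K) :
    θ (hz Y g) = θ (Y 0) ^ g.totalDegree * aeval (fun j => θ (Y j.succ) / θ (Y 0)) g := by
  unfold hz
  rw [map_sum, aevalF, mul_sum]
  apply sum_congr rfl
  intro s hs
  have h1 := sum_le_totalDegree g hs
  have h2 : θ (C (coeff s g)) = algebraMap K E (coeff s g) := by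
    rw [← algebraMap_eq, AlgHom.commutes]
  rw [map_mul, map_mul, map_pow, map_prod, h2]
  unfold monF
  simp only [map_pow, div_pow]
  rw [prod_div_distrib, prod_pow_eq_pow_sum]
  have h3 : θ (Y 0) ^ g.totalDegree = θ (Y 0) ^ (g.totalDegree - ∑ j, s j) * θ (Y 0) ^ ∑ j, s j := by
    rw [← pow_add, Nat.sub_add_cancel h1]
  rw [h3]
  field_simp

end homog

section local_

variable {K L : Type*} [Field K] [Field L] [NumberField L] [Algebra K L] {m r : ℕ}

/-- the truncated counting function -/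
noncomputable def NS (S : Finset (FinitePlace L)) (F : Fin r → MvPolynomial (Fin (m + 1)) K) (d : Fin r → ℕ)
    (x : Fin (m + 1) → L) : ℝ :=
  ∑ᶠ v : FinitePlace L, if v ∉ S ∧ ∃ i, v (aeval x (F i)) < (⨆ j, v (x j)) ^ d i then
    Real.log (Ideal.absNorm v.maximalIdeal.asIdeal : ℝ) else 0

lemma sum_le_v' (v : FinitePlace L) {ι : Type*} (s : Finset ι) (y : ι → L) {C : ℝ} (hC : 0 ≤ C)
    (h : ∀ j ∈ s, v (y j) ≤ C) : v (∑ j ∈ s, y j) ≤ C := by
  induction s using Finset.induction with
  | empty => simpa using hC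
  | insert a s ha ih =>
    rw [Finset.sum_insert ha]
    exact (FinitePlace.add_le v _ _).trans
      (max_le (h a (mem_insert_self _ _)) (ih fun j hj => h j (mem_insert_of_mem hj)))

lemma val_le {F : MvPolynomial (Fin (m + 1)) K} {d : ℕ} (hF : F.IsHomogeneous d) {v : FinitePlace L}
    (hv : ∀ s ∈ F.support, v (algebraMap K L (coeff s F)) ≤ 1) (x : Fin (m + 1) → L) :
    v (aeval x F) ≤ sv v x ^ d := by
  rw [aevalF]
  apply sum_le_v' _ _ _ (pow_nonneg (sv_nonneg _ _) _)
  intro s hs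
  have h1 : v (monF x s) ≤ sv v x ^ d := by
    unfold monF
    rw [map_prod]
    have h2 : sv v x ^ d = ∏ i, sv v x ^ s i := by
      rw [prod_pow_eq_pow_sum]
      congr 1
      rw [hF.degree_eq_sum_deg_support hs]
      exact sum_subset (subset_univ _) fun i _ hi => by simpa using hi
    rw [h2]
    apply prod_le_prod
    · intro i _
      exact apply_nonneg _ _
    · intro i _
      rw [map_pow]
      exact pow_le_pow_left₀ (apply_nonneg _ _) (le_sv v x i) _
  rw [map_mul]
  calc v (algebraMap K L (coeff s F)) * v (monF x s) ≤ 1 * sv v x ^ d :=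
        mul_le_mul (hv s hs) h1 (apply_nonneg _ _) zero_le_one
    _ = sv v x ^ d := one_mul _

/-- the places at which some coefficient is not integral -/
lemma exists_S0 (F : Fin r → MvPolynomial (Fin (m + 1)) K) :
    ∃ S0 : Finset (FinitePlace L), ∀ v ∉ S0, ∀ i, ∀ s ∈ (F i).support,
      v (algebraMap K L (coeff s (F i))) ≤ 1 := by
  have h : (⋃ i : Fin r, ⋃ s ∈ (F i).support,
      {v : FinitePlace L | 1 < v (algebraMap K L (coeff s (F i)))}).Finite := by
    apply Set.finite_iUnion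
    intro i
    apply Set.Finite.biUnion (Finset.finite_toSet _)
    intro s _
    exact gt_one_fin _
  refine ⟨h.toFinset, fun v hv i s hs => ?_⟩
  by_contra hcon
  push Not at hcon
  apply hv
  rw [Set.Finite.mem_toFinset]
  simp only [Set.mem_iUnion, Set.mem_ofPred_eq]
  exact ⟨i, s, hs, hcon⟩

lemma NS_fin (F : Fin r → MvPolynomial (Fin (m + 1)) K) (d : Fin r → ℕ) {x : Fin (m + 1) → L}
    (hx : x ≠ 0) (hF : ∀ i, aeval x (F i) ≠ 0) :
    {v : FinitePlace L | ∃ i, v (aeval x (F i)) < sv v x ^ d i}.Finite := by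
  have h1 : ((Function.mulSupport fun v : FinitePlace L => sv v x) ∪
      ⋃ i, Function.mulSupport fun v : FinitePlace L => v (aeval x (F i))).Finite :=
    (sv_fin hx).union (Set.finite_iUnion fun i => FinitePlace.hasFiniteMulSupport (hF i))
  refine h1.subset ?_
  rintro v ⟨i, hi⟩
  by_contra hcon
  rw [Set.mem_union, not_or] at hcon
  obtain ⟨g1, g2⟩ := hcon
  rw [Function.mem_mulSupport, not_not] at g1
  have g3 : v (aeval x (F i)) = 1 := by
    by_contra h
    exact g2 (Set.mem_iUnion.2 ⟨i, h⟩)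
  rw [g1, g3, one_pow] at hi
  exact lt_irrefl _ hi

/-- comparison of the counting functions -/
lemma N1_le_NS {N : ℕ} {S S' : Finset (FinitePlace L)} (hS : S ⊆ S')
    (F : Fin (N + 1) → MvPolynomial (Fin (m + 1)) K) (d k : Fin (N + 1) → ℕ) {e : ℕ}
    (hdk : ∀ i, d i * k i = e) (hF : ∀ i, (F i).IsHomogeneous (d i))
    (hS' : ∀ v ∉ S', ∀ i, ∀ s ∈ (F i).support, v (algebraMap K L (coeff s (F i))) ≤ 1)
    {x : Fin (m + 1) → L} (hx : x ≠ 0) (hFx : ∀ i, aeval x (F i) ≠ 0) :
    N1 S' (fun j : Fin N => aeval x (F j.succ ^ k j.succ) / aeval x (F 0 ^ k 0)) ≤ NS S F d x := by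
  have hz0 : ∀ j : Fin N, aeval x (F j.succ ^ k j.succ) / aeval x (F 0 ^ k 0) ≠ 0 := by
    intro j
    rw [map_pow, map_pow]
    exact div_ne_zero (pow_ne_zero _ (hFx _)) (pow_ne_zero _ (hFx _))
  rw [N1_eq S' hz0]
  have hfin : {v : FinitePlace L | v ∉ S ∧ ∃ i, v (aeval x (F i)) < sv v x ^ d i}.Finite :=
    (NS_fin F d hx hFx).subset fun v hv => hv.2
  have hNS : NS S F d x = ∑ v ∈ hfin.toFinset, Real.log (NN v) := by
    unfold NS
    rw [finsum_eq_sum_of_support_subset _ (s := hfin.toFinset) (by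
      intro v hv
      rw [Function.mem_support] at hv
      by_contra hne
      apply hv
      rw [if_neg]
      intro h
      apply hne
      rw [mem_coe, Set.Finite.mem_toFinset]
      exact h)]
    apply sum_congr rfl
    intro v hv
    rw [Set.Finite.mem_toFinset] at hv
    rw [if_pos (show v ∉ S ∧ ∃ i, v (aeval x (F i)) < (⨆ j, v (x j)) ^ d i from hv)]
    rfl
  rw [hNS]
  apply sum_le_sum_of_subset_of_nonneg
  · intro v hv
    rw [mem_bad hz0] at hv
    rw [Set.Finite.mem_toFinset]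
    refine ⟨fun h => hv.1 (hS h), ?_⟩
    by_contra hcon
    simp only [not_exists, not_lt] at hcon
    obtain ⟨j, hj⟩ := hv.2
    apply hj
    have h1 : ∀ i, v (aeval x (F i ^ k i)) = sv v x ^ e := by
      intro i
      have h2 : v (aeval x (F i)) = sv v x ^ d i :=
        le_antisymm (val_le (hF i) (hS' v hv.1 i) x) (hcon i)
      rw [map_pow, map_pow, h2, ← pow_mul, hdk]
    rw [map_div₀, h1, h1, div_self]
    exact (pow_pos (sv_pos v hx) _).ne'
  · intro v _ _
    exact log_nonneg' v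

end local_

section fibres

variable {K : Type} [Field K] {m N : ℕ}

lemma rep_scale {L : Type} [Field L] [Algebra K L] (𝔭 : Ideal (MvPolynomial (Fin (m + 1)) K))
    (hhom : ∀ g ∈ 𝔭, ∀ k, homogeneousComponent k g ∈ 𝔭) {x : Fin (m + 1) → L}
    (hx : ∀ g ∈ 𝔭, aeval x g = 0) (c : L) : ∀ g ∈ 𝔭, aeval (fun i => c * x i) g = 0 := by
  intro g hg
  rw [← sum_homogeneousComponent g, map_sum]
  apply sum_eq_zero
  intro k _
  rw [aeval_smul_homog (homogeneousComponent_isHomogeneous k g), hx _ (hhom g hg k), mul_zero]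

/-- the fibres of the map to the torus are bounded -/
theorem fibre_proj (𝔭 : Ideal (MvPolynomial (Fin (m + 1)) K))
    (hhom : ∀ g ∈ 𝔭, ∀ k, homogeneousComponent k g ∈ 𝔭)
    (Y : Fin (N + 1) → MvPolynomial (Fin (m + 1)) K) {e : ℕ} (he : 1 ≤ e)
    (hY : ∀ i, (Y i).IsHomogeneous e) (hint : (psi 𝔭 Y).toRingHom.IsIntegral) :
    ∃ c : ℕ, ∀ (L : Type) [Field L] [Algebra K L] (z : Fin N → L) (s : Finset (ℙ L (Fin (m + 1) → L))),
      (∀ P ∈ s, (∀ g ∈ 𝔭, aeval P.rep g = 0) ∧ aeval P.rep (Y 0) ≠ 0 ∧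
        ∀ j : Fin N, aeval P.rep (Y j.succ) / aeval P.rep (Y 0) = z j) → s.card ≤ c := by
  obtain ⟨c, hc⟩ := fibre_bound 𝔭 Y hint
  refine ⟨c, fun L _ _ z s hs => ?_⟩
  let E := AlgebraicClosure L
  have hlam : ∀ P : ℙ L (Fin (m + 1) → L), ∃ l : E, l ^ e = (algebraMap L E (aeval P.rep (Y 0)))⁻¹ :=
    fun P => IsAlgClosed.exists_pow_nat_eq _ (by omega)
  choose l hl using hlam
  let y : ℙ L (Fin (m + 1) → L) → (Fin (m + 1) → E) := fun P j => l P * algebraMap L E (P.rep j)
  have hl0 : ∀ P ∈ s, l P ≠ 0 := by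
    intro P hP h
    have := hl P
    rw [h, zero_pow (by omega)] at this
    have h2 : algebraMap L E (aeval P.rep (Y 0)) ≠ 0 := by
      rw [ne_eq, map_eq_zero]
      exact (hs P hP).2.1
    exact inv_ne_zero h2 this.symm
  have hval : ∀ (P : ℙ L (Fin (m + 1) → L)) (g : MvPolynomial (Fin (m + 1)) K),
      aeval (fun j => algebraMap L E (P.rep j)) g = algebraMap L E (aeval P.rep g) := by
    intro P g
    exact MvPolynomial.aeval_algebraMap_apply E P.rep g
  have hinj : Set.InjOn y s := by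
    intro P hP Q hQ hPQ
    have h1 : ∀ j, l P * algebraMap L E (P.rep j) = l Q * algebraMap L E (Q.rep j) := fun j => congrFun hPQ j
    obtain ⟨i, hi⟩ := Function.ne_iff.1 P.rep_nonzero
    have hQi : Q.rep i ≠ 0 := by
      intro h
      have h2 := h1 i
      rw [h, map_zero, mul_zero] at h2
      rcases mul_eq_zero.1 h2 with h3 | h3
      · exact hl0 P hP h3
      · rw [map_eq_zero] at h3
        exact hi h3
    have h4 : ∀ j, P.rep j * Q.rep i = Q.rep j * P.rep i := by
      intro j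
      have e1 := h1 j
      have e2 := h1 i
      have hA : (algebraMap L E (P.rep j) * algebraMap L E (Q.rep i)) * (l P * l Q) =
          (algebraMap L E (Q.rep j) * algebraMap L E (P.rep i)) * (l P * l Q) := by
        calc (algebraMap L E (P.rep j) * algebraMap L E (Q.rep i)) * (l P * l Q)
            = (l P * algebraMap L E (P.rep j)) * (l Q * algebraMap L E (Q.rep i)) := by ring
          _ = (l Q * algebraMap L E (Q.rep j)) * (l P * algebraMap L E (P.rep i)) := by rw [e1, ← e2]
          _ = _ := by ring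
      have hB := mul_right_cancel₀ (mul_ne_zero (hl0 P hP) (hl0 Q hQ)) hA
      rw [← map_mul, ← map_mul] at hB
      exact (algebraMap L E).injective hB
    rw [← P.mk_rep, ← Q.mk_rep, Projectivization.mk_eq_mk_iff']
    refine ⟨P.rep i / Q.rep i, ?_⟩
    ext j
    rw [Pi.smul_apply, smul_eq_mul, div_mul_eq_mul_div, div_eq_iff hQi]
    rw [mul_comm, ← h4 j]
  have hcard : (s.image y).card = s.card := card_image_of_injOn hinj
  rw [← hcard]
  apply hc E (Fin.cons 1 (fun j => algebraMap L E (z j)))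
  intro u hu
  obtain ⟨P, hP, rfl⟩ := mem_image.1 hu
  obtain ⟨g1, g2, g3⟩ := hs P hP
  constructor
  · have h1 : ∀ g ∈ 𝔭, aeval (fun j => algebraMap L E (P.rep j)) g = 0 := by
      intro g hg
      rw [hval, g1 g hg, map_zero]
    exact rep_scale 𝔭 hhom h1 (l P)
  · intro i
    have h1 : aeval (y P) (Y i) = l P ^ e * algebraMap L E (aeval P.rep (Y i)) := by
      change aeval (fun j => l P * algebraMap L E (P.rep j)) (Y i) = _
      rw [aeval_smul_homog (hY i), hval]
    rw [h1, hl P, ← map_inv₀, ← map_mul]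
    refine Fin.cases ?_ (fun j => ?_) i
    · rw [Fin.cons_zero, inv_mul_cancel₀ g2, map_one]
    · rw [Fin.cons_succ, ← g3 j]
      congr 1
      field_simp

end fibres

end Pool.Agent.H84.HS
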