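import Mathlib
import Pool.Agent.H84.HS.C
import Pool.Agent.H84.HS.D

/-!
# The count for projective varieties
-/

set_option autoImplicit false
set_option linter.unusedSectionVars false

open MvPolynomial NumberField Height Finset LinearAlgebra.Projectivization
open scoped Classical

namespace Pool.Agent.H84.HS

open Pool.Agent.H57R3.VJ (NN two_le_NN NN_pos sv sv_att sv_pos sv_nonneg le_sv sv_fin gt_one_fin fin_of_bdd)
open Pool.Agent.H84.VA

/-- heights of the coordinates of the image -/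
lemma height_image {K L : Type} [Field K] [Field L] [NumberField L] [Algebra K L] {m N : ℕ}
    (Y : Fin (N + 1) → MvPolynomial (Fin (m + 1)) K) {e : ℕ} (hY : ∀ i, (Y i).IsHomogeneous e) :
    ∃ C : ℝ, 1 ≤ C ∧ ∀ (x : Fin (m + 1) → L) (j : Fin N),
      mulHeight₁ (aeval x (Y j.succ) / aeval x (Y 0)) ≤ C * mulHeight x ^ e := by
  have h1 : ∀ j : Fin N, ∃ C > 0, ∀ x : Fin (m + 1) → L,
      mulHeight (fun i => (![map (algebraMap K L) (Y j.succ), map (algebraMap K L) (Y 0)] i).eval x) ≤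
        C * mulHeight x ^ e := by
    intro j
    apply mulHeight_eval_le'
    intro i
    fin_cases i
    · exact (hY j.succ).map _
    · exact (hY 0).map _
  choose C hC0 hC using h1
  refine ⟨1 + ∑ j, C j, ?_, fun x j => ?_⟩
  · have : 0 ≤ ∑ j, C j := sum_nonneg fun j _ => (hC0 j).le
    linarith
  · have h2 : (fun i => (![map (algebraMap K L) (Y j.succ), map (algebraMap K L) (Y 0)] i).eval x) =
        ![aeval x (Y j.succ), aeval x (Y 0)] := by
      ext i
      fin_cases i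
      · simp [eval_map, aeval_def]
      · simp [eval_map, aeval_def]
    have h3 := hC j x
    rw [h2] at h3
    rw [mulHeight₁_div_eq_mulHeight]
    refine h3.trans (mul_le_mul_of_nonneg_right ?_ (by positivity))
    have := single_le_sum (f := C) (fun j _ => (hC0 j).le) (mem_univ j)
    linarith

/-- The count for a projective variety with indecomposable hypersurface sections without a common
zero. -/
theorem main {K : Type} [Field K] [NumberField K] {m N : ℕ}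
    (𝔭 : Ideal (MvPolynomial (Fin (m + 1)) K)) (hp : 𝔭.IsPrime)
    (hhom : ∀ g ∈ 𝔭, ∀ k, homogeneousComponent k g ∈ 𝔭)
    (F : Fin (N + 1) → MvPolynomial (Fin (m + 1)) K) (d : Fin (N + 1) → ℕ) (hd : ∀ i, 1 ≤ d i)
    (hF : ∀ i, (F i).IsHomogeneous (d i))
    (hz : ∀ x : Fin (m + 1) → AlgebraicClosure K, (∀ g ∈ 𝔭, aeval x g = 0) →
      (∀ i, aeval x (F i) = 0) → x = 0)
    (hind : ∀ J : Finset (Fin (N + 1)), J.Nonempty → J ≠ univ →
      ∃ x : Fin (m + 1) → AlgebraicClosure K, (∀ g ∈ 𝔭, aeval x g = 0) ∧ (∃ i ∈ J, aeval x (F i) ≠ 0) ∧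
        ¬ ∃ y : Fin (m + 1) → AlgebraicClosure K, (∀ g ∈ 𝔭, aeval y g = 0) ∧
          ∀ i, aeval y (F i) ≠ 0 ↔ (i ∈ J ∧ aeval x (F i) ≠ 0)) :
    ∃ ν : ℝ, 0 < ν ∧ ∃ (G : MvPolynomial (Fin (m + 1)) K) (k : ℕ), G.IsHomogeneous k ∧ G ∉ 𝔭 ∧
      ∀ (L : Type) [Field L] [NumberField L] [Algebra K L] (S : Finset (FinitePlace L)) (ε : ℝ), 0 < ε →
        ∃ M : ℝ, ∀ X H : ℝ, 1 ≤ X → 1 ≤ H → ∀ PP : Finset (ℙ L (Fin (m + 1) → L)),
          (∀ P ∈ PP, (∀ g ∈ 𝔭, aeval P.rep g = 0) ∧ (∀ i, aeval P.rep (F i) ≠ 0) ∧ aeval P.rep G ≠ 0 ∧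
            P.mulHeight ≤ H ∧ NS S F d P.rep ≤ Real.log X) →
          (PP.card : ℝ) ≤ M * X ^ (1 - ν) * H ^ ε := by
  haveI := hp
  by_cases hFp : ∃ i, F i ∈ 𝔭
  · -- there are no points off the hypersurfaces
    obtain ⟨i, hi⟩ := hFp
    refine ⟨1, one_pos, 1, 0, isHomogeneous_one _ _, hp.one_notMem, ?_⟩
    intro L _ _ _ S ε hε
    refine ⟨0, fun X H hX hH PP hPP => ?_⟩
    have : PP = ∅ := by
      rw [eq_empty_iff_forall_notMem]
      intro P hP
      obtain ⟨g1, g2, _⟩ := hPP P hP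
      exact g2 i (g1 _ hi)
    rw [this]
    simp
  push Not at hFp
  -- powers of the same degree
  set k : Fin (N + 1) → ℕ := fun i => ∏ j ∈ univ.erase i, d j with hk
  set e : ℕ := ∏ j, d j with he
  have hdk : ∀ i, d i * k i = e := fun i => mul_prod_erase univ d (mem_univ i)
  have hk1 : ∀ i, 1 ≤ k i := fun i => Nat.one_le_iff_ne_zero.2 (prod_ne_zero_iff.2 fun j _ => by
    have := hd j; omega)
  have he1 : 1 ≤ e := Nat.one_le_iff_ne_zero.2 (prod_ne_zero_iff.2 fun j _ => by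
    have := hd j; omega)
  set Y : Fin (N + 1) → MvPolynomial (Fin (m + 1)) K := fun i => F i ^ k i with hYdef
  have hY : ∀ i, (Y i).IsHomogeneous e := fun i => by
    have := (hF i).pow (k i)
    rwa [hdk] at this
  have hYF : ∀ (E : Type) [Field E] [Algebra K E] (x : Fin (m + 1) → E) (i : Fin (N + 1)),
      aeval x (Y i) = 0 ↔ aeval x (F i) = 0 := by
    intro E _ _ x i
    rw [hYdef, map_pow, pow_eq_zero_iff (by have := hk1 i; omega)]
  have hYp : ∀ i, Y i ∉ 𝔭 := fun i h => hFp i (hp.mem_of_pow_mem _ h)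
  have hint : (psi 𝔭 Y).toRingHom.IsIntegral := psi_integral 𝔭 hhom Y (fun _ => e) (fun _ => he1) hY
    fun x h1 h2 => hz x h1 fun i => (hYF _ x i).1 (h2 i)
  have hng : NotGraded (tI 𝔭 Y) := by
    by_contra hgr
    obtain ⟨J, hJ, hJu, hJG⟩ := retract 𝔭 hhom Y he1 hY (hYp 0) hgr
    obtain ⟨x, hx, ⟨i, hi, hxi⟩, hno⟩ := hind J hJ hJu
    apply hno
    obtain ⟨y, hy, hy2⟩ := stratum 𝔭 Y hint J (fun G hG => by convert hJG G hG) x hx
    refine ⟨y, hy, fun i => ?_⟩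
    have := hy2 i
    rw [ne_eq, ne_eq, hYF, hYF] at this
    exact this
  have htp : (tI 𝔭 Y).IsPrime := by
    unfold tI
    exact RingHom.ker_isPrime _
  obtain ⟨ν, hν, _, f, hf, hup⟩ := upper (tI 𝔭 Y) htp hng
  obtain ⟨c, hc⟩ := fibre_proj 𝔭 hhom Y he1 hY hint
  have hy0 : yy 𝔭 Y 0 ≠ 0 := by
    unfold yy
    rw [ne_eq, frac_eq_zero]
    exact hYp 0
  let θ : MvPolynomial (Fin (m + 1)) K →ₐ[K] FractionRing (MvPolynomial (Fin (m + 1)) K ⧸ 𝔭) :=
    (IsScalarTower.toAlgHom K (MvPolynomial (Fin (m + 1)) K ⧸ 𝔭)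
      (FractionRing (MvPolynomial (Fin (m + 1)) K ⧸ 𝔭))).comp (Ideal.Quotient.mkₐ K 𝔭)
  have hθ : ∀ g, θ g = algebraMap (MvPolynomial (Fin (m + 1)) K ⧸ 𝔭)
      (FractionRing (MvPolynomial (Fin (m + 1)) K ⧸ 𝔭)) (Ideal.Quotient.mk 𝔭 g) := fun g => rfl
  have hθz : ∀ g : MvPolynomial (Fin N) K, HS.hz Y g ∈ 𝔭 ↔ g ∈ tI 𝔭 Y := by
    intro g
    have h1 := hz_eval Y θ hy0 g
    rw [← frac_eq_zero 𝔭, ← hθ, h1, mul_eq_zero, or_iff_right (pow_ne_zero _ (show θ (Y 0) ≠ 0 from hy0))]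
    unfold tI
    rw [RingHom.mem_ker]
    rfl
  refine ⟨ν, hν, HS.hz Y f, e * f.totalDegree, hz_homog hY f, fun h => hf ((hθz f).1 h), ?_⟩
  intro L _ _ _ S ε hε
  obtain ⟨S0, hS0⟩ := exists_S0 (L := L) F
  obtain ⟨C, hC1, hC⟩ := height_image (L := L) Y hY
  have he0 : (0 : ℝ) < e := by exact_mod_cast he1
  obtain ⟨M, hM⟩ := hup L (S ∪ S0) (ε / e) (by positivity)
  refine ⟨M * C ^ (ε / e) * c, fun X H hX hH PP hPP => ?_⟩
  have hmul : ∀ P : ℙ L (Fin (m + 1) → L), P.mulHeight = mulHeight P.rep := by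
    intro P
    conv_lhs => rw [← P.mk_rep]
    rw [Projectivization.mulHeight_mk]
  set z : ℙ L (Fin (m + 1) → L) → (Fin N → L) := fun P j => aeval P.rep (Y j.succ) / aeval P.rep (Y 0)
    with hzdef
  have hCH : 1 ≤ C * H ^ e := by
    have : 1 ≤ H ^ e := one_le_pow₀ hH
    nlinarith
  have himg : (((PP.image z).card : ℕ) : ℝ) ≤ M * X ^ (1 - ν) * (C * H ^ e) ^ (ε / e) := by
    apply hM X (C * H ^ e) hX hCH
    intro u hu
    obtain ⟨P, hP, rfl⟩ := mem_image.1 hu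
    obtain ⟨g1, g2, g3, g4, g5⟩ := hPP P hP
    have hY0 : ∀ i, aeval P.rep (Y i) ≠ 0 := fun i h => g2 i ((hYF _ _ i).1 h)
    have hev := fun g : MvPolynomial (Fin N) K =>
      hz_eval Y (aeval P.rep : MvPolynomial (Fin (m + 1)) K →ₐ[K] L) (hY0 0) g
    refine ⟨fun j => div_ne_zero (hY0 _) (hY0 _), ?_, ?_, ?_, ?_⟩
    · intro g hg
      have h1 := hev g
      rw [g1 _ ((hθz g).2 hg)] at h1
      rcases mul_eq_zero.1 h1.symm with h | h
      · exact absurd h (pow_ne_zero _ (hY0 0))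
      · exact h
    · intro h
      apply g3
      rw [hev f]
      change _ * aeval (z P) f = 0
      rw [h, mul_zero]
    · intro j
      refine (hC P.rep j).trans ?_
      rw [← hmul]
      have h1 : P.mulHeight ^ e ≤ H ^ e := pow_le_pow_left₀ (by rw [hmul]; positivity) g4 e
      exact mul_le_mul_of_nonneg_left h1 (by linarith)
    · refine le_trans ?_ g5
      exact N1_le_NS subset_union_left F d k hdk hF
        (fun v hv i s hs => hS0 v (fun h => hv (mem_union_right _ h)) i s hs) P.rep_nonzero g2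
  have h1 := card_le_fibers PP z himg (Nat.cast_nonneg c) (by
    intro u _
    have := hc L u (PP.filter fun P => z P = u) (by
      intro P hP
      obtain ⟨hP1, hP2⟩ := mem_filter.1 hP
      obtain ⟨g1, g2, _⟩ := hPP P hP1
      exact ⟨g1, fun h => g2 0 ((hYF _ _ 0).1 h), fun j => congrFun hP2 j⟩)
    exact_mod_cast this)
  refine h1.trans (le_of_eq ?_)
  have hH0 : 0 ≤ H := by linarith
  have h2 : (C * H ^ e) ^ (ε / e) = C ^ (ε / e) * H ^ ε := by
    rw [Real.mul_rpow (by linarith) (by positivity), ← Real.rpow_natCast H e, ← Real.rpow_mul hH0]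
    congr 2
    field_simp
  rw [h2]
  ring

end Pool.Agent.H84.HS
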